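import Pool.Agent.TH144.MB.Macaulay
import Pool.Agent.Helper947.Geo.Core

set_option autoImplicit false

/-!
# Replacing forms by directional derivatives

If forms `G, F_1, …, F_N` have no nonzero common zero, then directional derivatives of the `F_j`
may be chosen such that `G, D_{u_1} F_1, …, D_{u_N} F_N` have no nonzero common zero.
-/

namespace Pool.Agent.K7.H43.GP

open MvPolynomial Module
open Pool.Agent.Helper947.Geo (DD)
open Pool.Agent.TH144.MB (W mem_W exists_avoid exists_top bounded lin_hom eval_lin Hom hom_span)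

/-- A form of the family does not vanish at any nonzero point of a zero set of dimension at most
one, if this can be achieved for finitely many points. -/
theorem exists_form {σ : Type} [Fintype σ] {K : Type} [Field K] [Infinite K]
    {I : Ideal (MvPolynomial σ K)} {B : ℕ} (hB : ∀ t, finrank K (W I t) ≤ B)
    {α : Type} (e : ℕ) (A : α → MvPolynomial σ K) (hA : ∀ a, (A a).IsHomogeneous e)
    (hav : ∀ s : Finset (σ → K), (∀ v ∈ s, v ≠ 0 ∧ ∀ p ∈ I, eval v p = 0) →
      ∃ a, ∀ v ∈ s, eval v (A a) ≠ 0) :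
    ∃ a, ∀ v : σ → K, v ≠ 0 → (∀ p ∈ I, eval v p = 0) → eval v (A a) ≠ 0 := by
  classical
  obtain ⟨a0, -⟩ := hav ∅ (by simp)
  have : Nonempty α := ⟨a0⟩
  by_contra hcon
  push Not at hcon
  obtain ⟨v, hv, hr⟩ := exists_seq_of_forall_finset_exists
    (fun v : σ → K => v ≠ 0 ∧ ∀ p ∈ I, eval v p = 0)
    (fun x y => ∃ a : α, eval x (A a) ≠ 0 ∧ eval y (A a) = 0) (by
      intro s hs
      obtain ⟨a, ha⟩ := hav s hs
      obtain ⟨y, hy0, hy1, hy2⟩ := hcon a
      exact ⟨y, ⟨hy0, hy1⟩, fun x hx => ⟨a, ha x hx, hy2⟩⟩)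
  choose! a ha1 ha2 using hr
  obtain ⟨b, hb⟩ := exists_avoid ((Finset.range (B + 1)).image v) (by
    intro w hw
    obtain ⟨i, _, rfl⟩ := Finset.mem_image.1 hw
    exact (hv i).1)
  have hb' : ∀ i, i < B + 1 → eval (v i) (Pool.Agent.TH144.MB.lin b) ≠ 0 := fun i hi =>
    hb _ (Finset.mem_image_of_mem _ (Finset.mem_range.2 hi))
  -- a triangular system of forms
  let F : ℕ → MvPolynomial σ K := fun i =>
    (∏ k ∈ Finset.Ioc i B, A (a i k)) * Pool.Agent.TH144.MB.lin b ^ (e * i)
  have hF : ∀ i, i ≤ B → (F i).IsHomogeneous (e * B) := by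
    intro i hi
    have h1 : (∏ k ∈ Finset.Ioc i B, A (a i k)).IsHomogeneous (∑ _k ∈ Finset.Ioc i B, e) :=
      IsHomogeneous.prod _ _ _ fun k _ => hA _
    have h2 : (Pool.Agent.TH144.MB.lin b ^ (e * i)).IsHomogeneous (1 * (e * i)) :=
      (lin_hom b).pow (e * i)
    have h3 := h1.mul h2
    rw [Finset.sum_const, Nat.card_Ioc, smul_eq_mul, one_mul] at h3
    have h4 : (B - i) * e + e * i = e * B := by
      obtain ⟨j, rfl⟩ := Nat.exists_eq_add_of_le hi
      rw [Nat.add_sub_cancel_left]; ring
    rw [h4] at h3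
    exact h3
  have hF0 : ∀ i k, i < k → k ≤ B → eval (v k) (F i) = 0 := by
    intro i k hik hk
    simp only [F, map_mul, map_prod]
    rw [Finset.prod_eq_zero (Finset.mem_Ioc.2 ⟨hik, hk⟩) (ha2 i k hik), zero_mul]
  have hF1 : ∀ i, i ≤ B → eval (v i) (F i) ≠ 0 := by
    intro i hi
    simp only [F, map_mul, map_prod, map_pow]
    refine mul_ne_zero ?_ (pow_ne_zero _ (hb' i (by omega)))
    rw [Finset.prod_ne_zero_iff]
    intro k hk
    exact ha1 i k (Finset.mem_Ioc.1 hk).1
  have hli : LinearIndependent K (fun i : Fin (B + 1) =>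
      (⟨Ideal.Quotient.mk I (F i), mem_W.2 ⟨_, hF i (by omega), rfl⟩⟩ : W I (e * B))) := by
    rw [Fintype.linearIndependent_iff]
    intro g hg
    have h1 : ∑ i : Fin (B + 1), C (g i) * F i ∈ I := by
      rw [← Ideal.Quotient.eq_zero_iff_mem, map_sum]
      have h2 := congrArg (Submodule.subtype (W I (e * B))) hg
      rw [map_sum, map_zero] at h2
      rw [← h2]
      refine Finset.sum_congr rfl fun i _ => ?_
      rw [map_smul, Submodule.subtype_apply, ← smul_eq_C_mul]
      exact map_smul (Ideal.Quotient.mkₐ K I) (g i) (F i)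
    have h3 : ∀ k : Fin (B + 1), ∑ i : Fin (B + 1), g i * eval (v k) (F i) = 0 := by
      intro k
      have h4 := (hv k).2 _ h1
      rw [map_sum] at h4
      rw [← h4]
      refine Finset.sum_congr rfl fun i _ => ?_
      rw [(eval (v k)).map_mul (C (g i)) (F i), eval_C]
    have h5 : ∀ (m : ℕ) (k : Fin (B + 1)), B - k = m → g k = 0 := by
      intro m
      induction m using Nat.strong_induction_on with
      | _ m ih =>
        intro k hk
        have h6 := h3 k
        rw [Finset.sum_eq_single k] at h6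
        · rcases mul_eq_zero.1 h6 with h | h
          · exact h
          · exact absurd h (hF1 k (by omega))
        · intro i _ hik
          rcases lt_or_gt_of_ne (fun h : (i : ℕ) = k => hik (Fin.ext h)) with h | h
          · rw [hF0 i k h (by omega), mul_zero]
          · rw [ih (B - i) (by have := i.2; omega) i rfl, zero_mul]
        · intro h
          exact absurd (Finset.mem_univ k) h
    exact fun k => h5 _ k rfl
  have h6 := hli.fintype_card_le_finrank
  rw [Fintype.card_fin] at h6
  have := hB (e * B)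
  omega

theorem eval_DD {d : ℕ} (u v : Fin d → ℂ) (f : MvPolynomial (Fin d) ℂ) :
    eval v (DD u f) = ∑ i, u i * eval v (pderiv i f) := by
  simp [DD]

theorem DD_homog {d : ℕ} (u : Fin d → ℂ) {f : MvPolynomial (Fin d) ℂ} {a : ℕ}
    (hf : f.IsHomogeneous a) : (DD u f).IsHomogeneous (a - 1) := by
  unfold DD
  exact IsHomogeneous.sum _ _ _ fun i _ => (hf.pderiv).C_mul _

theorem euler {d : ℕ} (v : Fin d → ℂ) {f : MvPolynomial (Fin d) ℂ} {a : ℕ}
    (hf : f.IsHomogeneous a) : ∑ i, v i * eval v (pderiv i f) = (a : ℂ) * eval v f := by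
  have h2 := congrArg (eval v) hf.sum_X_mul_pderiv
  simpa using h2

theorem polar_one {ι : Type} [Fintype ι] [DecidableEq ι] {n : ℕ}
    (H : ι → MvPolynomial (Fin n) ℂ) (d : ι → ℕ) (hH : ∀ i, (H i).IsHomogeneous (d i))
    (hv : ∀ v : Fin n → ℂ, (∀ i, eval v (H i) = 0) → v = 0) (i₀ : ι) (hd : 1 ≤ d i₀) :
    ∃ u : Fin n → ℂ, ∀ v : Fin n → ℂ, (∀ i, i ≠ i₀ → eval v (H i) = 0) →
      eval v (DD u (H i₀)) = 0 → v = 0 := by
  classical
  set I : Ideal (MvPolynomial (Fin n) ℂ) := Ideal.span (H '' {i | i ≠ i₀}) with hIdef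
  have hHom : Hom I := hom_span (by
    rintro _ ⟨i, _, rfl⟩
    exact ⟨_, hH i⟩)
  have hmem : ∀ v : Fin n → ℂ, (∀ i, i ≠ i₀ → eval v (H i) = 0) → ∀ p ∈ I, eval v p = 0 := by
    intro v hvv p hp
    have h2 : I ≤ RingHom.ker (eval v) := by
      rw [hIdef, Ideal.span_le]
      rintro _ ⟨i, hi, rfl⟩
      exact RingHom.mem_ker.2 (hvv i hi)
    exact RingHom.mem_ker.1 (h2 hp)
  have hmem' : ∀ v : Fin n → ℂ, (∀ p ∈ I, eval v p = 0) → ∀ i, i ≠ i₀ → eval v (H i) = 0 :=
    fun v h i hi => h _ (Ideal.subset_span ⟨i, hi, rfl⟩)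
  obtain ⟨T, hT⟩ := exists_top (I := I ⊔ Ideal.span {H i₀}) (by
    intro v hvv
    refine hv v fun i => ?_
    by_cases hi : i = i₀
    · subst hi
      exact hvv _ (Ideal.mem_sup_right (Ideal.mem_span_singleton_self _))
    · exact hvv _ (Ideal.mem_sup_left (Ideal.subset_span ⟨i, hi, rfl⟩)))
  obtain ⟨B, hB⟩ := bounded hHom hd (hH i₀) hT
  obtain ⟨u, hu⟩ := exists_form hB (d i₀ - 1) (fun u : Fin n → ℂ => DD u (H i₀))
    (fun u => DD_homog u (hH i₀)) (by
      intro s hs
      obtain ⟨a, ha⟩ := exists_avoid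
        (s.image fun v : Fin n → ℂ => fun i : Fin n => eval v (pderiv i (H i₀))) (by
          intro w hw
          obtain ⟨v, hvs, rfl⟩ := Finset.mem_image.1 hw
          intro h0
          have h1 := euler v (hH i₀)
          have h2 : ∀ i, eval v (pderiv i (H i₀)) = 0 := fun i => congrFun h0 i
          simp only [h2, mul_zero, Finset.sum_const_zero] at h1
          have h3 : eval v (H i₀) = 0 := by
            rcases mul_eq_zero.mp h1.symm with h4 | h4
            · have h5 : d i₀ = 0 := by exact_mod_cast h4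
              omega
            · exact h4
          apply (hs v hvs).1
          refine hv v fun i => ?_
          by_cases hi : i = i₀
          · rw [hi]; exact h3
          · exact hmem' v (hs v hvs).2 i hi)
      refine ⟨a, fun v hvs => ?_⟩
      have h1 := ha _ (Finset.mem_image_of_mem _ hvs)
      rw [eval_lin] at h1
      rw [eval_DD]
      exact h1)
  refine ⟨u, fun v hv1 hv2 => ?_⟩
  by_contra hne
  exact hu v hne (hmem v hv1) hv2

theorem polar_all {n N : ℕ} (G : MvPolynomial (Fin n) ℂ) (F : Fin N → MvPolynomial (Fin n) ℂ)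
    (e : ℕ) (a : Fin N → ℕ) (hG : G.IsHomogeneous e) (hF : ∀ j, (F j).IsHomogeneous (a j))
    (ha : ∀ j, 1 ≤ a j)
    (hv : ∀ v : Fin n → ℂ, eval v G = 0 → (∀ j, eval v (F j) = 0) → v = 0) :
    ∃ u : Fin N → Fin n → ℂ, ∀ v : Fin n → ℂ, eval v G = 0 →
      (∀ j, eval v (DD (u j) (F j)) = 0) → v = 0 := by
  classical
  have key : ∀ s : Finset (Fin N), ∃ u : Fin N → Fin n → ℂ, ∀ v : Fin n → ℂ, eval v G = 0 →
      (∀ j ∈ s, eval v (DD (u j) (F j)) = 0) → (∀ j, j ∉ s → eval v (F j) = 0) → v = 0 := by
    intro s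
    induction s using Finset.induction_on with
    | empty => exact ⟨fun _ => 0, fun v h1 _ h2 => hv v h1 fun j => h2 j (by simp)⟩
    | insert j₀ s hj₀ ih =>
      obtain ⟨u, hu⟩ := ih
      let H : Option (Fin N) → MvPolynomial (Fin n) ℂ := fun o =>
        o.elim G fun j => if j ∈ s then DD (u j) (F j) else F j
      let d : Option (Fin N) → ℕ := fun o => o.elim e fun j => if j ∈ s then a j - 1 else a j
      obtain ⟨x, hx⟩ := polar_one H d (by
        rintro (_ | j)
        · exact hG
        · show (if j ∈ s then DD (u j) (F j) else F j).IsHomogeneous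
            (if j ∈ s then a j - 1 else a j)
          split_ifs
          · exact DD_homog _ (hF j)
          · exact hF j) (by
        intro v h
        refine hu v (h none) (fun j hj => ?_) (fun j hj => ?_)
        · have h1 := h (some j)
          simp only [H, Option.elim, if_pos hj] at h1
          exact h1
        · have h1 := h (some j)
          simp only [H, Option.elim, if_neg hj] at h1
          exact h1) (some j₀) (by
        show 1 ≤ if j₀ ∈ s then a j₀ - 1 else a j₀
        rw [if_neg hj₀]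
        exact ha j₀)
      refine ⟨Function.update u j₀ x, fun v h1 h2 h3 => ?_⟩
      refine hx v ?_ ?_
      · rintro (_ | j) hj
        · exact h1
        · have hj' : j ≠ j₀ := fun h => hj (by rw [h])
          show eval v (if j ∈ s then DD (u j) (F j) else F j) = 0
          by_cases hjs : j ∈ s
          · rw [if_pos hjs]
            have h4 := h2 j (Finset.mem_insert_of_mem hjs)
            rwa [Function.update_of_ne hj'] at h4
          · rw [if_neg hjs]
            exact h3 j (by
              intro h4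
              rcases Finset.mem_insert.mp h4 with h5 | h5
              · exact hj' h5
              · exact hjs h5)
      · show eval v (DD x (if j₀ ∈ s then DD (u j₀) (F j₀) else F j₀)) = 0
        rw [if_neg hj₀]
        have h4 := h2 j₀ (Finset.mem_insert_self _ _)
        rwa [Function.update_self] at h4
  obtain ⟨u, hu⟩ := key Finset.univ
  exact ⟨u, fun v h1 h2 => hu v h1 (fun j _ => h2 j) fun j hj => absurd (Finset.mem_univ j) hj⟩

end Pool.Agent.K7.H43.GP
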