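import Pool.Agent.Helper947.Geo.A3
import Pool.Agent.Helper947.Geo.B2
import Pool.Agent.K7.H43.GP.Polar

set_option autoImplicit false

/-!
# The derivative of the relation of the projected points

`derive`: let `∑ l_k(P) G(π_P(z_k)) = 0` for all `P` and all forms `G` of degree `m`. If `G` vanishes
at all points `π_P(z_k)`, then `∑ l_k(P) (z_k)_{last} (D_u G)(π_P(z_k)) = 0` for all directions `u`.

`grad_ne`: generators of the ideal of a reduced complete intersection have nonzero gradients at the
points.
-/

namespace Pool.Agent.K7.H43.GP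

open MvPolynomial Module
open Pool.Agent.Helper947.Geo

theorem projv_move {N : ℕ} (P z : Fin (N + 1) → ℂ) (u : Fin N → ℂ) (t : ℂ) :
    projv (P + t • (Fin.snoc u 0 : Fin (N + 1) → ℂ)) z =
      projv P z + t • ((-z (Fin.last N)) • u) := by
  funext i
  simp only [projv, Pi.add_apply, Pi.smul_apply, smul_eq_mul, Fin.snoc_last, Fin.snoc_castSucc]
  ring

theorem derive {N : ℕ} {K : Type} [Fintype K] (z : K → Fin (N + 1) → ℂ) (m : ℕ)
    (l : K → MvPolynomial (Fin (N + 1)) ℂ) (hl : Rel z m l) (P : Fin (N + 1) → ℂ)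
    (hP : P (Fin.last N) ≠ 0) (u : Fin N → ℂ) (G : MvPolynomial (Fin N) ℂ)
    (hG : G.IsHomogeneous m) (h0 : ∀ k, eval (projv P (z k)) G = 0) :
    ∑ k, eval P (l k) * z k (Fin.last N) * eval (projv P (z k)) (DD u G) = 0 := by
  classical
  set v : Fin (N + 1) → ℂ := Fin.snoc u 0 with hv
  let p : Polynomial ℂ := ∑ k, cur P v (l k) * cur (projv P (z k)) ((-z k (Fin.last N)) • u) G
  have hp : p = 0 := by
    apply Polynomial.funext
    intro t
    rw [Polynomial.eval_zero]
    have hlast : (P + t • v) (Fin.last N) ≠ 0 := by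
      rw [hv]
      simp only [Pi.add_apply, Pi.smul_apply, Fin.snoc_last, smul_zero, add_zero]
      exact hP
    have hne : P + t • v ≠ 0 := fun h => hlast (by rw [h]; rfl)
    have h1 := hl (P + t • v) hne
    rw [relSpace_eq z m (P + t • v) hlast] at h1
    have h2 := h1 G hG
    rw [← h2]
    simp only [p, Polynomial.eval_finsetSum, Polynomial.eval_mul, eval_cur]
    refine Finset.sum_congr rfl fun k _ => ?_
    rw [hv, projv_move]
  have hd : Polynomial.eval 0 (Polynomial.derivative p) = 0 := by
    rw [hp]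
    simp
  simp only [p, Polynomial.derivative_sum, Polynomial.derivative_mul, inv_der,
    Polynomial.eval_finsetSum, Polynomial.eval_add, Polynomial.eval_mul, eval_cur, zero_smul,
    add_zero, h0, mul_zero, zero_add] at hd
  have h3 : ∀ k, eval (projv P (z k)) (DD ((-z k (Fin.last N)) • u) G) =
      -(z k (Fin.last N) * eval (projv P (z k)) (DD u G)) := by
    intro k
    rw [eval_DD, eval_DD, Finset.mul_sum, ← Finset.sum_neg_distrib]
    refine Finset.sum_congr rfl fun i _ => ?_
    simp only [Pi.smul_apply, smul_eq_mul]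
    ring
  simp only [h3] at hd
  have h4 : ∑ k, eval P (l k) * z k (Fin.last N) * eval (projv P (z k)) (DD u G) =
      -∑ k, eval P (l k) * -(z k (Fin.last N) * eval (projv P (z k)) (DD u G)) := by
    rw [← Finset.sum_neg_distrib]
    refine Finset.sum_congr rfl fun k _ => ?_
    ring
  rw [h4, hd, neg_zero]

/-- the gradients of the elements of an ideal are combinations of the gradients of generators -/
theorem grad_mem {N M : ℕ} (F : Fin M → MvPolynomial (Fin N) ℂ) (x : Fin N → ℂ)
    (h0 : ∀ j, eval x (F j) = 0) (f : MvPolynomial (Fin N) ℂ)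
    (hf : f ∈ Ideal.span (Set.range F)) :
    (fun i => eval x (pderiv i f)) ∈
      Submodule.span ℂ (Set.range fun j => fun i => eval x (pderiv i (F j))) := by
  classical
  obtain ⟨c, hc⟩ := Ideal.mem_span_range_iff_exists_fun.mp hf
  have h1 : (fun i => eval x (pderiv i f)) =
      ∑ j, eval x (c j) • (fun i => eval x (pderiv i (F j))) := by
    funext i
    rw [← hc, map_sum, map_sum, Finset.sum_apply]
    refine Finset.sum_congr rfl fun j _ => ?_
    simp only [Pi.smul_apply, smul_eq_mul, Derivation.leibniz, map_add, map_mul, smul_eq_mul, h0 j]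
    ring
  rw [h1]
  exact Submodule.sum_mem _ fun j _ => Submodule.smul_mem _ _ (Submodule.subset_span ⟨j, rfl⟩)

theorem grad_li {N : ℕ} {K : Type} [Fintype K] (w : K → Fin (N + 1) → ℂ)
    (hw : ∀ k l, k ≠ l → LinearIndependent ℂ ![w k, w l])
    (F : Fin N → MvPolynomial (Fin (N + 1)) ℂ)
    (hI : IsVan w (Ideal.span (Set.range F))) (k : K) :
    LinearIndependent ℂ (fun j : Fin N => fun i => eval (w k) (pderiv i (F j))) := by
  classical
  rw [linearIndependent_iff_card_le_finrank_span, Fintype.card_fin]
  unfold Set.finrank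
  -- linear forms through the other points
  have hex : ∀ l, ∃ η : Fin (N + 1) → ℂ, l ≠ k → ∑ i, η i * w l i = 0 ∧ ∑ i, η i * w k i ≠ 0 := by
    intro l
    by_cases hl : l = k
    · exact ⟨0, fun h => absurd hl h⟩
    · obtain ⟨η, h1, h2⟩ := ev_sep (w k) (w l) (hw k l (Ne.symm hl))
      exact ⟨η, fun _ => ⟨h1, h2⟩⟩
  choose η hη using hex
  set Q : MvPolynomial (Fin (N + 1)) ℂ := ∏ l ∈ Finset.univ.erase k, evL (η l) with hQ
  have hQk : eval (w k) Q ≠ 0 := by
    rw [hQ, map_prod, Finset.prod_ne_zero_iff]
    intro l hl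
    rw [evL_eval]
    exact (hη l (Finset.ne_of_mem_erase hl)).2
  have hF0 : ∀ j, eval (w k) (F j) = 0 := by
    intro j
    have h1 := (hI (F j)).mp (Ideal.subset_span ⟨j, rfl⟩) k 1
    rwa [one_smul] at h1
  -- the functional `η ↦ η(w k)`
  let T : (Fin (N + 1) → ℂ) →ₗ[ℂ] ℂ :=
    { toFun := fun θ => ∑ i, θ i * w k i
      map_add' := fun a b => by simp [add_mul, Finset.sum_add_distrib]
      map_smul' := fun a b => by simp [Finset.mul_sum, mul_assoc] }
  have hker : LinearMap.ker T ≤
      Submodule.span ℂ (Set.range fun j : Fin N => fun i => eval (w k) (pderiv i (F j))) := by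
    intro θ hθ
    have hθ' : ∑ i, θ i * w k i = 0 := hθ
    have hmem : evL θ * Q ∈ Ideal.span (Set.range F) := by
      rw [hI]
      intro l t
      rw [map_mul]
      by_cases hl : l = k
      · subst hl
        rw [evL_eval]
        have : ∑ i, θ i * (t • w l) i = t * ∑ i, θ i * w l i := by
          rw [Finset.mul_sum]
          refine Finset.sum_congr rfl fun i _ => ?_
          rw [Pi.smul_apply, smul_eq_mul]; ring
        rw [this, hθ', mul_zero, zero_mul]
      · rw [hQ, map_prod, Finset.prod_eq_zero (Finset.mem_erase.mpr ⟨hl, Finset.mem_univ l⟩),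
          mul_zero]
        rw [evL_eval]
        have : ∑ i, η l i * (t • w l) i = t * ∑ i, η l i * w l i := by
          rw [Finset.mul_sum]
          refine Finset.sum_congr rfl fun i _ => ?_
          rw [Pi.smul_apply, smul_eq_mul]; ring
        rw [this, (hη l hl).1, mul_zero]
    have h1 := grad_mem F (w k) hF0 _ hmem
    have h2 : (fun i => eval (w k) (pderiv i (evL θ * Q))) = eval (w k) Q • θ := by
      funext i
      have h3 : eval (w k) (evL θ) = 0 := by rw [evL_eval]; exact hθ'
      have h4 : pderiv i (evL θ) = C (θ i) := by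
        unfold evL
        rw [map_sum, Finset.sum_eq_single i]
        · rw [pderiv_C_mul, pderiv_X_self, mul_one]
        · intro j _ hj
          rw [pderiv_C_mul, pderiv_X_of_ne hj, mul_zero]
        · intro h; exact absurd (Finset.mem_univ i) h
      rw [Derivation.leibniz, map_add, smul_eq_mul, smul_eq_mul, map_mul, map_mul, h3, zero_mul,
        zero_add, h4, eval_C, Pi.smul_apply, smul_eq_mul]
    rw [h2] at h1
    have h5 := Submodule.smul_mem _ (eval (w k) Q)⁻¹ h1
    rwa [smul_smul, inv_mul_cancel₀ hQk, one_smul] at h5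
  have h1 := Submodule.finrank_mono hker
  have h2 := LinearMap.finrank_range_add_finrank_ker T
  have h3 : finrank ℂ (LinearMap.range T) ≤ 1 := by
    have := Submodule.finrank_le (LinearMap.range T)
    rwa [finrank_self] at this
  rw [finrank_fin_fun] at h2
  omega

theorem grad_ne {N : ℕ} {K : Type} [Fintype K] (w : K → Fin (N + 1) → ℂ)
    (hw : ∀ k l, k ≠ l → LinearIndependent ℂ ![w k, w l])
    (F : Fin N → MvPolynomial (Fin (N + 1)) ℂ)
    (hI : IsVan w (Ideal.span (Set.range F))) (k : K) (j : Fin N) :
    (fun i => eval (w k) (pderiv i (F j))) ≠ 0 :=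
  (grad_li w hw F hI k).ne_zero j

end Pool.Agent.K7.H43.GP
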