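import Pool.Agent.Y206.G.Asm
import Pool.Agent.Y206.G.Ci
import Pool.Agent.Y206.E.Line
import Pool.Agent.Helper947.Geo.A3
import Pool.Agent.K7.H43.GP.Der

set_option autoImplicit false

/-!
# The degrees of a general projection which is a complete intersection
-/

namespace Pool.Agent.K7.H43.GP

open MvPolynomial Module
open Pool.Agent.Helper947.Geo
open Pool.Agent.Y206.G (GorSet J_iff mem_values exists_linear soc1_of_ci card_pos_of_span span_dual)

/-- all relations of degree `σ - 2` are multiples of the relation of degree `σ - 1` -/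
theorem pred_span {N : ℕ} {K : Type} [Fintype K] {w : K → Fin N → ℂ}
    {I : Ideal (MvPolynomial (Fin N) ℂ)} {h : MvPolynomial (Fin N) ℂ} {m : ℕ}
    (g : GorSet w (m + 2) I h) (c : K → ℂ) (hc : c ∈ evRel w (m + 1)) (hc0 : c ≠ 0) :
    evRel w m ≤ Submodule.span ℂ (Set.range fun (i : Fin N) (k : K) => c k * w k i) := by
  classical
  set S : Submodule ℂ (K → ℂ) :=
    Submodule.span ℂ (Set.range fun (i : Fin N) (k : K) => c k * w k i) with hS
  have hcs := (finrank_eq_one_iff_of_nonzero' (⟨c, hc⟩ : evRel w (m + 1)) (fun h1 =>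
      hc0 (congrArg Subtype.val h1))).mp g.rel_top
  intro e he
  by_contra hnot
  obtain ⟨f, hf1, hf2⟩ := Submodule.exists_dual_map_eq_bot_of_notMem hnot inferInstance
  have hf : ∀ y : K → ℂ, ∑ k, y k * f (Pi.single k 1) = f y := by
    intro y
    have hy : y = ∑ k, y k • (Pi.single k (1 : ℂ) : K → ℂ) := by
      funext j
      simp [Finset.sum_apply, Pi.single_apply]
    conv_rhs => rw [hy]
    rw [map_sum]
    refine Finset.sum_congr rfl fun k _ => ?_
    rw [map_smul, smul_eq_mul]
  set v : K → ℂ := fun k => f (Pi.single k 1) with hv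
  apply hf1
  rw [← hf]
  have hwv : ∀ i : Fin N, ∃ G : MvPolynomial (Fin N) ℂ, G.IsHomogeneous (m + 1) ∧
      ∀ k, eval (w k) G = w k i * v k := by
    intro i
    apply mem_values
    intro c' hc'
    obtain ⟨t, ht⟩ := hcs ⟨c', hc'⟩
    have h1 : ∀ k, c' k = t * c k := fun k => (congrFun (congrArg Subtype.val ht) k).symm
    have h2 : f (fun k => c k * w k i) ∈ S.map f :=
      Submodule.mem_map_of_mem (Submodule.subset_span ⟨i, rfl⟩)
    rw [hf2] at h2
    have h3 := (Submodule.mem_bot ℂ).mp h2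
    rw [← hf] at h3
    calc ∑ k, c' k * (w k i * v k) = t * ∑ k, c k * w k i * f (Pi.single k 1) := by
          rw [Finset.mul_sum]
          refine Finset.sum_congr rfl fun k _ => ?_
          rw [h1 k]; ring
      _ = 0 := by rw [h3, mul_zero]
  choose G hG1 hG2 using hwv
  -- `h • v` is the vector of values of a form
  obtain ⟨q, hq⟩ : ∃ q : Fin N → ℂ, ∀ k, eval (w k) h = ∑ i, q i * w k i := by
    obtain ⟨L, hL⟩ := zz_eval_lin h g.hh
    refine ⟨fun i => L (Pi.single i 1), fun k => ?_⟩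
    rw [← hL (w k), LinearMap.pi_apply_eq_sum_univ L (w k)]
    refine Finset.sum_congr rfl fun i _ => ?_
    rw [smul_eq_mul, mul_comm]
    congr 2
    funext j
    simp [Pi.single_apply, eq_comm]
  have hF1 : (∑ i, C (q i) * G i).IsHomogeneous (m + 1) :=
    IsHomogeneous.sum _ _ _ fun i _ => (hG1 i).C_mul _
  have hF2 : ∀ k, eval (w k) (∑ i, C (q i) * G i) = eval (w k) h * v k := by
    intro k
    rw [hq k, map_sum, Finset.sum_mul]
    refine Finset.sum_congr rfl fun i _ => ?_
    rw [map_mul, eval_C, hG2 i k]; ring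
  have hFJ : (∑ i, C (q i) * G i) ∈ I ⊔ Ideal.span {h} := by
    apply g.soc (by omega) hF1
    intro i
    have h1 : (X i * ∑ i, C (q i) * G i).IsHomogeneous (m + 1 + 1) := by
      have := (isHomogeneous_X ℂ i).mul hF1
      rwa [add_comm 1 (m + 1)] at this
    rw [J_iff g.hI g.hh h1]
    refine ⟨G i, hG1 i, fun k => ?_⟩
    rw [map_mul, hF2 k, eval_X, hG2 i k]; ring
  obtain ⟨H, hH1, hH2⟩ := (J_iff g.hI g.hh hF1).mp hFJ
  have hv' : ∀ k, v k = eval (w k) H := by
    intro k
    apply mul_left_cancel₀ (g.hne k)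
    rw [← hH2 k, hF2 k]
  show ∑ k, e k * v k = 0
  rw [Finset.sum_congr rfl fun k _ => by rw [hv' k]]
  exact he H hH1

/-- polynomial families of relations -/
theorem exists_fam {d : ℕ} (hd : 0 < d) {K : Type} [Fintype K] (z : K → Fin d → ℂ) :
    ∃ ψ : MvPolynomial (Fin d) ℂ, ψ ≠ 0 ∧ ∀ P : Fin d → ℂ, eval P ψ ≠ 0 →
      ∀ m, m < Fintype.card K → finrank ℂ (relSpace z m P) = 1 →
        ∃ l : K → MvPolynomial (Fin d) ℂ, Rel z m l ∧ (fun k => eval P (l k)) ≠ 0 := by
  classical
  obtain ⟨φ, r, hφ, hr⟩ := generic_ranks hd z (Fintype.card K)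
  have hex : ∀ m, ∃ ψ : MvPolynomial (Fin d) ℂ, ψ ≠ 0 ∧ ∀ P : Fin d → ℂ, eval P φ ≠ 0 →
      eval P ψ ≠ 0 → m < Fintype.card K → finrank ℂ (relSpace z m P) = 1 →
        ∃ l : K → MvPolynomial (Fin d) ℂ, Rel z m l ∧ (fun k => eval P (l k)) ≠ 0 := by
    intro m
    by_cases hm : m < Fintype.card K ∧ r m = 1
    · obtain ⟨D, l, hl0, -, hl, -⟩ := exists_primitive z m φ hφ (fun P hP h0 => by
        have h1 := hr P hP m hm.1
        rw [h0, finrank_bot, hm.2] at h1
        exact zero_ne_one h1)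
      obtain ⟨j, hj⟩ := Function.ne_iff.mp hl0
      exact ⟨l j, hj, fun P _ hP2 _ _ => ⟨l, hl, fun h0 => hP2 (congrFun h0 j)⟩⟩
    · refine ⟨1, one_ne_zero, fun P hP1 _ hm1 hm2 => ?_⟩
      exact absurd ⟨hm1, (hr P hP1 m hm1).symm.trans hm2⟩ hm
  choose ψ hψ0 hψ using hex
  refine ⟨φ * ∏ m ∈ Finset.range (Fintype.card K), ψ m, mul_ne_zero hφ
    (Finset.prod_ne_zero_iff.mpr fun m _ => hψ0 m), fun P hP m hm hm1 => ?_⟩
  rw [map_mul, map_prod] at hP
  exact hψ m P (left_ne_zero_of_mul hP)
    (Finset.prod_ne_zero_iff.mp (right_ne_zero_of_mul hP) m (Finset.mem_range.mpr hm)) hm hm1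

/-- **The degrees of the general projection are at least the number of forms.** -/
theorem degrees_ge {N : ℕ} (hN : 2 ≤ N) {K : Type} [Fintype K] [DecidableEq K]
    (z : K → Fin (N + 2) → ℂ) (hsp : Submodule.span ℂ (Set.range z) = ⊤)
    (P : Fin (N + 2) → ℂ) (hlast : P (Fin.last (N + 1)) ≠ 0)
    (hw : ∀ k l, k ≠ l → LinearIndependent ℂ ![projv P (z k), projv P (z l)])
    (hw0 : ∀ k, projv P (z k) ≠ 0)
    (hwsp : Submodule.span ℂ (Set.range fun k => projv P (z k)) = ⊤)
    (F : Fin N → MvPolynomial (Fin (N + 1)) ℂ) (a : Fin N → ℕ)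
    (ha : ∀ i, (F i).IsHomogeneous (a i)) (hreg : IsReg F)
    (hI : IsVan (fun k => projv P (z k)) (Ideal.span (Set.range F)))
    (hfam : ∀ m, m < Fintype.card K → finrank ℂ (relSpace z m P) = 1 →
      ∃ l : K → MvPolynomial (Fin (N + 2)) ℂ, Rel z m l ∧ (fun k => eval P (l k)) ≠ 0)
    (j₀ : Fin N) : N ≤ a j₀ := by
  classical
  by_contra hcon
  push Not at hcon
  set w : K → Fin (N + 1) → ℂ := fun k => projv P (z k) with hwdef
  obtain ⟨ha2, hn⟩ := ci_rel w hw hw0 hwsp F a ha hreg hI
  have hsum : 2 * N ≤ ∑ i, a i := by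
    calc 2 * N = ∑ _i : Fin N, 2 := by simp [mul_comm]
      _ ≤ ∑ i, a i := Finset.sum_le_sum fun i _ => ha2 i
  obtain ⟨m, hm⟩ : ∃ m, m + 1 + (N + 1) = ∑ i, a i := ⟨∑ i, a i - (N + 2), by omega⟩
  obtain ⟨hr1, -⟩ := hn (m + 1) hm
  have hcard : N + 2 ≤ Fintype.card K := card_pos_of_span z hsp
  have hK : Nonempty K := Fintype.card_pos_iff.mp (by omega)
  have hmK : m + 1 < Fintype.card K := by
    by_contra hge
    push Not at hge
    rw [evRel_large w hw hw0 (m + 1) hge, finrank_bot] at hr1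
    omega
  obtain ⟨h, hh, hne⟩ := exists_linear w hw0
  obtain ⟨-, hsoc⟩ := soc1_of_ci F a ha hreg hI hh hne
  have hσ1 : ∑ i, (a i - 1) + N = ∑ i, a i := by
    have h1 : ∑ i, (a i - 1) + ∑ _i : Fin N, 1 = ∑ i, a i := by
      rw [← Finset.sum_add_distrib]
      exact Finset.sum_congr rfl fun i _ => by have := ha2 i; omega
    simpa using h1
  have hσ : ∑ i, (a i - 1) = m + 2 := by omega
  rw [hσ] at hsoc
  have g : GorSet w (m + 2) (Ideal.span (Set.range F)) h := ⟨hI, hh, hne, hsoc, hw, hw0⟩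
  obtain ⟨l, hl, hl0⟩ := hfam (m + 1) hmK (by rw [relSpace_eq z (m + 1) P hlast]; exact hr1)
  have hPne : P ≠ 0 := fun h0 => hlast (by rw [h0]; rfl)
  have hlam : (fun k => eval P (l k)) ∈ evRel w (m + 1) := by
    have h1 := hl P hPne
    rwa [relSpace_eq z (m + 1) P hlast] at h1
  have hfull : ∀ k, eval P (l k) ≠ 0 := fun k =>
    GorSet.full (m := m + 1) g (by omega) (fun k => eval P (l k)) hlam hl0 k
  have hF0 : ∀ j k, eval (w k) (F j) = 0 := by
    intro j k
    have h1 := (hI (F j)).mp (Ideal.subset_span ⟨j, rfl⟩) k 1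
    rwa [one_smul] at h1
  -- the first form
  obtain ⟨u₀, hu₀⟩ : ∃ u₀ : Fin (N + 1) → ℂ, ∀ k, eval (w k) (DD u₀ (F j₀)) ≠ 0 := by
    obtain ⟨b, hb⟩ := Pool.Agent.TH144.MB.exists_avoid
      (Finset.univ.image fun k : K => fun i : Fin (N + 1) => eval (w k) (pderiv i (F j₀))) (by
        intro x hx
        obtain ⟨k, _, rfl⟩ := Finset.mem_image.1 hx
        exact grad_ne w hw F hI k j₀)
    refine ⟨b, fun k => ?_⟩
    have h1 := hb _ (Finset.mem_image_of_mem _ (Finset.mem_univ k))
    rw [Pool.Agent.TH144.MB.eval_lin] at h1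
    rw [eval_DD]
    exact h1
  obtain ⟨u, hu⟩ := polar_all (DD u₀ (F j₀)) F (a j₀ - 1) a (DD_homog u₀ (ha j₀)) ha
    (fun j => by have := ha2 j; omega) (by
      intro v hv1 hv2
      obtain ⟨k, t, rfl⟩ := (Pool.Agent.Y206.E.zero_locus w _ hI v).mp (by
        rintro f ⟨j, rfl⟩
        exact hv2 j)
      rw [rc_eval_smul _ _ (DD_homog u₀ (ha j₀))] at hv1
      have h1 := (mul_eq_zero.mp hv1).resolve_right (hu₀ k)
      have h2 : t = 0 := by
        by_contra ht
        exact pow_ne_zero _ ht h1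
      rw [h2, zero_smul])
  -- all forms of degree `m` lie in the ideal of the derivatives
  let f : Option (Fin N) → MvPolynomial (Fin (N + 1)) ℂ := fun o =>
    o.elim (DD u₀ (F j₀)) fun j => DD (u j) (F j)
  let d : Option (Fin N) → ℕ := fun o => o.elim (a j₀ - 1) fun j => a j - 1
  have hdeg : ∑ o, (d o - 1) < m := by
    rw [Fintype.sum_option]
    have h1 : ∑ i, (a i - 1 - 1) + 2 * N = ∑ i, a i := by
      have h1 : ∑ i, (a i - 1 - 1) + ∑ _i : Fin N, 2 = ∑ i, a i := by
        rw [← Finset.sum_add_distrib]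
        exact Finset.sum_congr rfl fun i _ => by have := ha2 i; omega
      simpa [mul_comm] using h1
    show (a j₀ - 1 - 1) + ∑ i, (a i - 1 - 1) < m
    have := ha2 j₀
    omega
  have hmac : ∀ p : MvPolynomial (Fin (N + 1)) ℂ, p.IsHomogeneous m →
      p ∈ Ideal.span (Set.range f) := by
    intro p hp
    refine Pool.Agent.TH144.MB.macaulay f d ?_ ?_ (by simp) ?_ hdeg hp
    · rintro (_ | j)
      · exact DD_homog _ (ha j₀)
      · exact DD_homog _ (ha j)
    · rintro (_ | j)
      · show 0 < a j₀ - 1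
        have := ha2 j₀; omega
      · show 0 < a j - 1
        have := ha2 j; omega
    · intro v hv
      exact hu v (hv none) fun j => hv (some j)
  -- the derivative of the relation
  have kill : ∀ (j : Fin N) (x : Fin (N + 1) → ℂ) (c : MvPolynomial (Fin (N + 1)) ℂ),
      ∑ k, eval P (l k) * z k (Fin.last (N + 1)) *
        eval (w k) (homogeneousComponent m (DD x (F j) * c)) = 0 := by
    intro j x c
    rcases lt_or_ge m (a j - 1) with hlt | hge
    · rw [Pool.Agent.TH144.MB.comp_mul_lt (DD_homog x (ha j)) c hlt]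
      simp
    · obtain ⟨e, he⟩ := Nat.exists_eq_add_of_le hge
      rw [he, Pool.Agent.TH144.MB.comp_mul (DD_homog x (ha j)) c e]
      set q := homogeneousComponent e c with hq
      have hqh : q.IsHomogeneous e := homogeneousComponent_isHomogeneous e c
      have hGh : (F j * q).IsHomogeneous (m + 1) := by
        have h1 := (ha j).mul hqh
        have h2 : a j + e = m + 1 := by have := ha2 j; omega
        rwa [h2] at h1
      have h1 := derive z (m + 1) l hl P hlast x (F j * q) hGh (fun k => by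
        rw [map_mul]
        rw [show eval (projv P (z k)) (F j) = 0 from hF0 j k, zero_mul])
      rw [← h1]
      refine Finset.sum_congr rfl fun k _ => ?_
      congr 1
      rw [DD_mul, map_add, map_mul (eval (projv P (z k))) (F j),
        show eval (projv P (z k)) (F j) = 0 from hF0 j k, zero_mul, add_zero]
  have hrel : (fun k => eval P (l k) * z k (Fin.last (N + 1))) ∈ evRel w m := by
    intro p hp
    obtain ⟨c, hc⟩ := Ideal.mem_span_range_iff_exists_fun.mp (hmac p hp)
    have h1 : p = ∑ o, homogeneousComponent m (f o * c o) := by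
      have h2 : homogeneousComponent m p = p := by
        rw [homogeneousComponent_of_mem ((mem_homogeneousSubmodule m p).mpr hp), if_pos rfl]
      rw [← h2, ← hc, map_sum]
      exact Finset.sum_congr rfl fun o _ => by rw [mul_comm]
    have h3 : ∀ o, ∑ k, eval P (l k) * z k (Fin.last (N + 1)) *
        eval (w k) (homogeneousComponent m (f o * c o)) = 0 := by
      rintro (_ | j)
      · exact kill j₀ u₀ (c none)
      · exact kill j (u j) (c (some j))
    rw [h1]
    simp only [map_sum, Finset.mul_sum]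
    rw [Finset.sum_comm]
    exact Finset.sum_eq_zero fun o _ => h3 o
  -- the last coordinates are given by a linear form of the projections
  have hspan := pred_span g (fun k => eval P (l k)) hlam hl0 hrel
  obtain ⟨b, hb⟩ := (Submodule.mem_span_range_iff_exists_fun ℂ).mp hspan
  have hlin : ∀ k, z k (Fin.last (N + 1)) = ∑ i, b i * w k i := by
    intro k
    have h1 := congrFun hb k
    rw [Finset.sum_apply] at h1
    simp only [Pi.smul_apply, smul_eq_mul] at h1
    apply mul_left_cancel₀ (hfull k)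
    rw [← h1, Finset.mul_sum]
    exact Finset.sum_congr rfl fun i _ => by ring
  let θ : Fin (N + 2) → ℂ := Fin.snoc (fun i : Fin (N + 1) => -(b i * P (Fin.last (N + 1))))
    (1 + ∑ i, b i * P i.castSucc)
  have hθ : ∀ y : Fin (N + 2) → ℂ, θ ⬝ᵥ y = y (Fin.last (N + 1)) - ∑ i, b i * projv P y i := by
    intro y
    unfold dotProduct
    rw [Fin.sum_univ_castSucc]
    simp only [θ, Fin.snoc_castSucc, Fin.snoc_last, projv]
    have h1 : ∑ i : Fin (N + 1), b i * (P (Fin.last (N + 1)) * y i.castSucc -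
        y (Fin.last (N + 1)) * P i.castSucc) =
        -∑ i : Fin (N + 1), -(b i * P (Fin.last (N + 1))) * y i.castSucc -
          y (Fin.last (N + 1)) * ∑ i : Fin (N + 1), b i * P i.castSucc := by
      rw [Finset.mul_sum, ← Finset.sum_neg_distrib, ← Finset.sum_sub_distrib]
      exact Finset.sum_congr rfl fun i _ => by ring
    rw [h1]
    ring
  have hθ0 : θ = 0 := span_dual z hsp θ fun k => by
    rw [hθ, sub_eq_zero]
    exact hlin k
  have h1 := hθ P
  rw [hθ0, zero_dotProduct] at h1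
  have h2 : ∀ i, projv P P i = 0 := fun i => by
    simp only [projv]
    ring
  simp only [h2, mul_zero, Finset.sum_const_zero, sub_zero] at h1
  exact hlast h1.symm

end Pool.Agent.K7.H43.GP
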